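import Pool.Agent.Helper30.TQ.St

/-!
# Project TQ, MODULE RTE: the real root
-/

set_option autoImplicit false

namespace Pool.Agent.Helper13.TQ

open Pool.Agent.Helper30.TQ

theorem hRTE : StRTE := by
  intro c hc
  have hcR : (3 : ℝ) ≤ (c : ℝ) := by exact_mod_cast hc
  have hc0 : (0 : ℝ) < (c : ℝ) := by linarith
  set f : ℝ → ℝ := fun T => T ^ 3 + 4 * (c : ℝ) * T + 4 with hf
  have hcont : ContinuousOn f (Set.Icc (-(1 / (c : ℝ))) 0) := by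
    apply Continuous.continuousOn
    rw [hf]
    fun_prop
  have hinv : 0 < 1 / (c : ℝ) := by positivity
  have hinv3 : 1 / (c : ℝ) ≤ 1 / 3 := one_div_le_one_div_of_le (by norm_num) hcR
  have hci : (c : ℝ) * (1 / (c : ℝ)) = 1 := by field_simp
  have h1 : f (-(1 / (c : ℝ))) < 0 := by
    have e : f (-(1 / (c : ℝ))) = -(1 / (c : ℝ)) ^ 3 - 4 * ((c : ℝ) * (1 / (c : ℝ))) + 4 := by
      rw [hf]
      ring
    rw [e, hci]
    have : 0 < (1 / (c : ℝ)) ^ 3 := by positivity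
    linarith
  have h2 : 0 < f 0 := by
    rw [hf]
    norm_num
  obtain ⟨a, ha, ha0⟩ := intermediate_value_Ioo (by linarith : -(1 / (c : ℝ)) ≤ 0) hcont
    (Set.mem_Ioo.2 ⟨h1, h2⟩)
  rw [Set.mem_Ioo] at ha
  have hroot : a ^ 3 + 4 * (c : ℝ) * a + 4 = 0 := ha0
  obtain ⟨ha1, ha2⟩ := ha
  have hca : -1 < (c : ℝ) * a := by
    have := mul_lt_mul_of_pos_left ha1 hc0
    rw [mul_neg, hci] at this
    exact this
  have hca2 : (c : ℝ) * a < 0 := mul_neg_of_pos_of_neg hc0 ha2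
  refine ⟨a, hroot, by linarith, ha2, by linarith, by linarith, ?_⟩
  -- `b = -a`, `x = c b`
  have hb0 : 0 < -a := by linarith
  have hb1 : -a ≤ 1 / 3 := by linarith
  have hb3 : (-a) ^ 3 ≤ (1 / 3) ^ 3 := pow_le_pow_left₀ hb0.le hb1 3
  have hx : 1 - (1 / 3) ^ 3 / 4 ≤ (c : ℝ) * (-a) := by nlinarith
  have hx3 : (1 - (1 / 3 : ℝ) ^ 3 / 4) ^ 3 ≤ ((c : ℝ) * (-a)) ^ 3 :=
    pow_le_pow_left₀ (by norm_num) hx 3
  have e : 5 * (c : ℝ) ^ 3 * (1 + (c : ℝ) * a) = 5 / 4 * ((c : ℝ) * (-a)) ^ 3 := by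
    linear_combination (5 / 4 * (c : ℝ) ^ 3) * hroot
  rw [e]
  norm_num at hx3 ⊢
  linarith

end Pool.Agent.Helper13.TQ
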